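import Pool.Agent.Work.MP_db9399_hc.Interface

/-!
# MP_db9399: the core for one host `H` of degree `D` (owner helper34)

`OneRound`, `EndCap` for one host, `dd` = bound for the number of rounds; `Stmt_RND1`, `Stmt_CAPE`
follow from the family versions (`rnd1_of`, `cape_of`).
-/

set_option autoImplicit false

namespace Pool.Agent.Work.MP_db9399_hc

open Finset Classical
open Pool.Agent.Work.MP_db9399_all (nb)
open Pool.Agent.Work.MP_db9399_px (LWalk hit ee)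
open Pool.Agent.Work.MP_db9399_dn (NB IsMat Tot)
open Pool.Agent.Work.MP_db9399_sc (cut Crit Conn Env Fam Rnd Hv)
open Pool.Agent.Work.MP_db9399_bg (den cl LabP Good PN IsPat en enP Sep Near REnv r0 Deep Spr Ok
  Lbl bx c3f c3 rs rs_symm eR HPre Ix)
open Pool.Agent.Work.MP_db9399_lc (BL)
open Pool.Agent.Work.MP_db9399_lh (Lh Cr ce su kp io sp pt cr cy rf rx rr tj ty inM rP rR np nr eP
  pr qr qe Vq)
open _root_.MP_db9399_co

universe u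

section ctx
variable {V : Type u} [Fintype V] {l m r K K1 S : ℕ}

/-- one more round, in the host `H` of degree `D`, is possible; `dd` bounds the number of rounds -/
def OneRound (g' δ : ℝ) (H : SimpleGraph V) (D dd : ℕ) (lab : V → Lh l m r K K1 S) : Prop :=
  ∀ (τ : Option (ZMod 3)) (i : ZMod 3) (F : SimpleGraph V) (a : ZMod (2 * m + 1)) (h : Fin m)
    (U J : Finset V) (lg : ℕ) (Oi : ℕ → Finset V), τ ≠ some i →
    REnv H F (qr l m S τ D) δ lab (rP l r K K1 S a h τ) (rR l S τ) U J →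
    lg * (3 * (2 * m + 1)) ≤ dd →
    (∀ j < lg, Spr g' H D (3 * (2 * m + 1)) (Vq lab a i) (Oi j)) →
    ∃ (M : SimpleGraph V) (O : Finset V), M ≤ F ∧ IsMat M ∧ (∀ v w, M.Adj v w → v ∈ U) ∧
      (∀ v ∈ U, v ∉ O → (nb M v).Nonempty) ∧ O ⊆ U ∧
      (∀ v ∈ O, ce (lab v) = a ∧ pt (lab v) = i ∧ inM (lab v) ∧ ∀ j < lg, v ∉ Oi j) ∧
      Spr g' H D (3 * (2 * m + 1)) (Vq lab a i) O

/-- critical sets of the last rounds contain unused vertices which may be missed -/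
def EndCap (h g' δ : ℝ) (H : SimpleGraph V) (D dd : ℕ) (lab : V → Lh l m r K K1 S) : Prop :=
  ∀ (i : ZMod 3) (F : SimpleGraph V) (U L C : Finset V) (qq lg : ℕ)
    (Oi : ZMod (2 * m + 1) → ℕ → Finset V),
    REnv H F (qe l D) δ lab (eP l m r K K1 S i) (eR l) U ∅ →
    qe l D ≤ qq → (qq : ℝ) ≤ 101 / 100 * qe l D → L ⊆ U → Crit F qq U L C → Conn F C →
    lg * (3 * (2 * m + 1)) ≤ dd →
    (∀ a, ∀ j < lg, Spr g' H D (3 * (2 * m + 1)) (Vq lab a i) (Oi a j)) →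
    h / 40 * C.card ≤ ((C.filter (fun v => inM (lab v) ∧ ∀ a, ∀ j < lg, v ∉ Oi a j)).card : ℝ)

theorem oneRound_of {g' δ : ℝ} {H : SimpleGraph V} {D dd : ℕ} {lab : V → Lh l m r K K1 S}
    (h : OneRoundH g' δ (fun _ : Unit => H) (fun _ => D) dd lab) : OneRound g' δ H D dd lab := by
  intro τ i F a h' U J lg Oi hτ hE hlg hO
  exact h () τ i F a h' U J lg (fun _ => ()) Oi hτ hE hlg hO

theorem endCap_of {h g' δ : ℝ} {H : SimpleGraph V} {D dd : ℕ} {lab : V → Lh l m r K K1 S}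
    (hh : EndCapH h g' δ (fun _ : Unit => H) (fun _ => D) dd lab) :
    EndCap h g' δ H D dd lab := by
  intro i F U L C qq lg Oi hE hq1 hq2 hL hC hc hlg hO
  exact hh () i F U L C qq lg (fun _ _ => ()) Oi hE hq1 hq2 hL hC hc hlg hO

theorem hosts_one {g ε σ c1 b R : ℝ} {T : Type} [Fintype T] {H : SimpleGraph V} {D : ℕ}
    {lab : V → T} (h : BH g ε b H D) (hl : LabP H D σ c1 lab) (h1 : (1 + g) * D ≤ b)
    (h2 : 2 ≤ R) (h3 : b ≤ R * D) :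
    Hosts g ε σ c1 b R (fun _ : Unit => H) (fun _ => D) (fun _ _ => D) lab where
  bh _ := h
  lb _ := hl
  bh2 _ _ := by rw [inf_idem]; exact h
  lb2 _ _ := by rw [inf_idem]; exact hl
  b1 _ := h1
  rat _ _ := by
    have : (0 : ℝ) ≤ D := Nat.cast_nonneg _
    nlinarith
  ratb _ _ := h3

end ctx

/-- RND1 for one host. -/
def Stmt_RND1 : Prop :=
  ∀ h : ℝ, 0 < h → h ≤ 1 / 10 → ∃ l0 : ℕ, ∀ (l S : ℕ) (g g' R : ℝ), l0 ≤ l → 0 < g → g ≤ h →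
    0 < g' → 2 ≤ R → 1000 * (R + 1) * g' ≤ g → ∃ δ : ℝ, 0 < δ ∧
    ∀ m r K K1 : ℕ, 1 ≤ m → ∃ (σ c1 ε0 : ℝ) (d0 : ℕ), 0 < σ ∧ 0 < c1 ∧ 0 < ε0 ∧
    ∀ {V : Type u} [Fintype V] (H : SimpleGraph V) (D dd : ℕ) (b : ℝ)
      (lab : V → Lh l m r K K1 S), d0 ≤ D → BH g ε0 b H D → LabP H D σ c1 lab →
      (1 + g) * D ≤ b → b ≤ R * D → (1 + h) * dd ≤ b → OneRound g' δ H D dd lab

/-- CAPE for one host. -/
def Stmt_CAPE : Prop :=
  ∀ h : ℝ, 0 < h → h ≤ 1 / 10 → ∃ l0 : ℕ, ∀ (l : ℕ) (g g' R : ℝ), l0 ≤ l → 0 < g → g ≤ h →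
    0 < g' → 2 ≤ R → 1000 * (R + 1) * g' ≤ g → ∃ δ : ℝ, 0 < δ ∧
    ∀ m r K K1 S : ℕ, 1 ≤ m → ∃ (σ c1 ε0 : ℝ) (d0 : ℕ), 0 < σ ∧ 0 < c1 ∧ 0 < ε0 ∧
    ∀ {V : Type u} [Fintype V] (H : SimpleGraph V) (D dd : ℕ) (b : ℝ)
      (lab : V → Lh l m r K K1 S), d0 ≤ D → BH g ε0 b H D → LabP H D σ c1 lab →
      (1 + g) * D ≤ b → b ≤ R * D → (1 + h) * dd ≤ b → EndCap h g' δ H D dd lab

theorem rnd1_of (H : Stmt_RND1H.{u}) : Stmt_RND1.{u} := by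
  intro h hh0 hh1
  obtain ⟨l0, H1⟩ := H h hh0 hh1
  refine ⟨l0, fun l S g g' R hl hg hgh hg' hR hgR => ?_⟩
  obtain ⟨δ, hδ, H2⟩ := H1 l S g g' R hl hg hgh hg' (by linarith) hgR
  refine ⟨δ, hδ, fun m r K K1 hm => ?_⟩
  obtain ⟨σ, c1, ε0, d0, hσ, hc1, hε0, H3⟩ := H2 m r K K1 hm
  refine ⟨σ, c1, ε0, d0, hσ, hc1, hε0, ?_⟩
  intro V _ G D dd b lab hd hB hL h1 h2 h3
  exact oneRound_of (H3 (fun _ : Unit => G) (fun _ => D) (fun _ _ => D) b dd lab (fun _ => hd)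
    (hosts_one hB hL h1 hR h2) h3)

theorem cape_of (H : Stmt_CAPEH.{u}) : Stmt_CAPE.{u} := by
  intro h hh0 hh1
  obtain ⟨l0, H1⟩ := H h hh0 hh1
  refine ⟨l0, fun l g g' R hl hg hgh hg' hR hgR => ?_⟩
  obtain ⟨δ, hδ, H2⟩ := H1 l g g' R hl hg hgh hg' (by linarith) hgR
  refine ⟨δ, hδ, fun m r K K1 S hm => ?_⟩
  obtain ⟨σ, c1, ε0, d0, hσ, hc1, hε0, H3⟩ := H2 m r K K1 S hm
  refine ⟨σ, c1, ε0, d0, hσ, hc1, hε0, ?_⟩
  intro V _ G D dd b lab hd hB hL h1 h2 h3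
  exact endCap_of (H3 (fun _ : Unit => G) (fun _ => D) (fun _ _ => D) b dd lab (fun _ => hd)
    (hosts_one hB hL h1 hR h2) h3)

end Pool.Agent.Work.MP_db9399_hc
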