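import Pool.Agent.Work.MP_db9399_lh.Interface

/-!
# MP_db9399: the core of the machine LCH for a family of hosts (owner helper34)

The reserve edges of one round lie in one of finitely many host graphs `Hs i` (degree `Ds i`), the
near-closed sets of the hosts have more than `b` vertices (`b` real, independent of the degrees),
`dd` bounds the number of rounds. `R` bounds all ratios. `g'` = parameter of `Deep` (small compared
with `g / R`); no new definition of `Deep`, `Spr` is needed.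

Statements: T1H (from T1 of LC), GROWH, RND1H, CAPEH. Parameters: `h` = size (capacity), `g` =
expansion (`g ≤ h`), `l` depends on `h` only.
-/

set_option autoImplicit false

namespace Pool.Agent.Work.MP_db9399_hc

open Finset Classical
open Pool.Agent.Work.MP_db9399_all (nb)
open Pool.Agent.Work.MP_db9399_px (LWalk hit ee)
open Pool.Agent.Work.MP_db9399_dn (NB IsMat Tot)
open Pool.Agent.Work.MP_db9399_sc (cut Crit Conn Env Fam Rnd Hv)
open Pool.Agent.Work.MP_db9399_bg (den cl LabP Good PN IsPat en enP Sep Near REnv r0 Deep Spr Ok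
  Lbl bx c3f c3 rs rs_symm eR HPre Ix)
open Pool.Agent.Work.MP_db9399_lc (BL)
open Pool.Agent.Work.MP_db9399_lh (Lh Cr ce su kp io sp pt cr cy rf rx rr tj ty inM rP rR np nr eP
  pr qr qe Vq)
open _root_.MP_db9399_co

universe u

section defs
variable {V : Type u} [Fintype V]

/-- near-regular graphs of degree `D` without almost bipartite parts and without near-closed sets
of at most `b` vertices -/
structure BH (g ε b : ℝ) (G : SimpleGraph V) (D : ℕ) : Prop where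
  deg : ∀ v, (nb G v).card ≤ D
  low : ∀ v, (1 - ε) * D ≤ ((nb G v).card : ℝ)
  bip : ∀ S T : Finset V, Disjoint S T → (S.card : ℝ) ≤ (1 + g) * T.card →
    g * D * T.card ≤ ∑ t ∈ T, ((nb G t \ S).card : ℝ)
  nsc : ∀ C : Finset V, (C.card : ℝ) ≤ b →
    g * D * C.card ≤ ∑ v ∈ C, ((nb G v \ C).card : ℝ)
  big : 3 * D ≤ Fintype.card V

theorem BH.bl {g ε b : ℝ} {G : SimpleGraph V} {D : ℕ} (h : BH g ε b G D)
    (hb : (1 + g) * D ≤ b) : BL g ε G D where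
  deg := h.deg
  low := h.low
  bip := h.bip
  nsc := fun C hC => h.nsc C (hC.trans hb)
  big := h.big

/-- The hosts: the graphs `Hs i`, and their intersections `Hs i ⊓ Hs j` of degree `Dm i j` (take
`Dm i i = Ds i`), with one labelling which is good for all of them. -/
structure Hosts (g ε σ c1 b R : ℝ) {T : Type} [Fintype T] {ι : Type}
    (Hs : ι → SimpleGraph V) (Ds : ι → ℕ) (Dm : ι → ι → ℕ) (lab : V → T) : Prop where
  bh : ∀ i, BH g ε b (Hs i) (Ds i)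
  lb : ∀ i, LabP (Hs i) (Ds i) σ c1 lab
  bh2 : ∀ i j, BH g ε b (Hs i ⊓ Hs j) (Dm i j)
  lb2 : ∀ i j, LabP (Hs i ⊓ Hs j) (Dm i j) σ c1 lab
  b1 : ∀ i, (1 + g) * Ds i ≤ b
  rat : ∀ i j, (Ds i : ℝ) + Ds j ≤ R * Dm i j
  ratb : ∀ i j, b ≤ R * Dm i j

end defs

section ctx
variable {V : Type u} [Fintype V] {l m r K K1 S : ℕ} {ι : Type}

/-- one more round, in the host `Hs κ`, is possible; the sets `Oi j` of the vertices missed before
are spread with respect to any hosts `Hs (hi j)` -/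
def OneRoundH (g' δ : ℝ) (Hs : ι → SimpleGraph V) (Ds : ι → ℕ) (dd : ℕ)
    (lab : V → Lh l m r K K1 S) : Prop :=
  ∀ (κ : ι) (τ : Option (ZMod 3)) (i : ZMod 3) (F : SimpleGraph V) (a : ZMod (2 * m + 1))
    (h : Fin m) (U J : Finset V) (lg : ℕ) (hi : ℕ → ι) (Oi : ℕ → Finset V), τ ≠ some i →
    REnv (Hs κ) F (qr l m S τ (Ds κ)) δ lab (rP l r K K1 S a h τ) (rR l S τ) U J →
    lg * (3 * (2 * m + 1)) ≤ dd →
    (∀ j < lg, Spr g' (Hs (hi j)) (Ds (hi j)) (3 * (2 * m + 1)) (Vq lab a i) (Oi j)) →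
    ∃ (M : SimpleGraph V) (O : Finset V), M ≤ F ∧ IsMat M ∧ (∀ v w, M.Adj v w → v ∈ U) ∧
      (∀ v ∈ U, v ∉ O → (nb M v).Nonempty) ∧ O ⊆ U ∧
      (∀ v ∈ O, ce (lab v) = a ∧ pt (lab v) = i ∧ inM (lab v) ∧ ∀ j < lg, v ∉ Oi j) ∧
      Spr g' (Hs κ) (Ds κ) (3 * (2 * m + 1)) (Vq lab a i) O

/-- critical sets of the last rounds (host `Hs κ`) contain unused vertices which may be missed -/
def EndCapH (h g' δ : ℝ) (Hs : ι → SimpleGraph V) (Ds : ι → ℕ) (dd : ℕ)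
    (lab : V → Lh l m r K K1 S) : Prop :=
  ∀ (κ : ι) (i : ZMod 3) (F : SimpleGraph V) (U L C : Finset V) (qq lg : ℕ)
    (hi : ZMod (2 * m + 1) → ℕ → ι) (Oi : ZMod (2 * m + 1) → ℕ → Finset V),
    REnv (Hs κ) F (qe l (Ds κ)) δ lab (eP l m r K K1 S i) (eR l) U ∅ →
    qe l (Ds κ) ≤ qq → (qq : ℝ) ≤ 101 / 100 * qe l (Ds κ) → L ⊆ U → Crit F qq U L C → Conn F C →
    lg * (3 * (2 * m + 1)) ≤ dd →
    (∀ a, ∀ j < lg,
      Spr g' (Hs (hi a j)) (Ds (hi a j)) (3 * (2 * m + 1)) (Vq lab a i) (Oi a j)) →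
    h / 40 * C.card ≤ ((C.filter (fun v => inM (lab v) ∧ ∀ a, ∀ j < lg, v ∉ Oi a j)).card : ℝ)

end ctx

/-! ## Blocks -/

/-- T1H (from T1 of LC and nsc): critical sets come from near-components of more than `b`
vertices. -/
def Stmt_T1H : Prop :=
  ∀ (g ε : ℝ) (n B L : ℕ), 0 < g → 0 < ε → ∃ δ : ℝ, 0 < δ ∧ ∀ M : ℕ, 0 < M →
    ∃ (σ c1 ε0 : ℝ) (d0 : ℕ), 0 < σ ∧ 0 < c1 ∧ 0 < ε0 ∧
    ∀ {T β : Type} [Fintype T] [Fintype β] (P : β → Finset T) (R : β → β → Prop) (p b : ℝ)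
      {V : Type u} [Fintype V] (G F : SimpleGraph V) (D qq : ℕ) (lab : V → T)
      (U J L' C : Finset V), IsPat P R n L p → Fintype.card β ≤ B → Fintype.card T = M →
      d0 ≤ D → BH g ε0 b G D → (1 + g) * D ≤ b → LabP G D σ c1 lab →
      REnv G F (n * p * D) δ lab P R U J →
      n * p * D ≤ qq → (qq : ℝ) ≤ 101 / 100 * (n * p * D) → L' ⊆ U → Crit F qq U L' C →
      Conn F C →
      ∃ Y : Finset V, b < Y.card ∧
        (∀ P' Q' : Finset T,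
          ee G (Y ∩ cl lab P') (cl lab Q' \ Y) ≤ ε * (den P' * den Q') * D * Y.card) ∧
        (∀ P' : Finset T, |((Y ∩ cl lab P').card : ℝ) - den P' * Y.card| ≤
          ε * den P' * Y.card) ∧
        ∀ b, Near (C ∩ cl lab (P b)) (Y ∩ cl lab (P b)) (ε * p * Y.card)

/-- GROWH: two sets in which `z` is deep, with respect to two hosts whose intersection is a host,
have a large intersection. -/
def Stmt_GROWH : Prop :=
  ∀ g g' R b : ℝ, 0 < g → g ≤ 1 / 10 → 0 < g' → 1 ≤ R → 1000 * (R + 1) * g' ≤ g →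
    ∀ {V : Type u} [Fintype V] (G G' GI : SimpleGraph V) (D D' DI N : ℕ)
    (Vg C C' : Finset V) (z : V), 0 < N → GI ≤ G → GI ≤ G' → BH g (g / 100) b GI DI →
    (D : ℝ) + D' ≤ R * DI → b ≤ R * DI →
    (∀ v, (1 - g / 100) * DI / N ≤ ((nb GI v ∩ Vg).card : ℝ)) →
    Deep g' G D N Vg C z → Deep g' G' D' N Vg C' z →
    (1 - g / 20) * b ≤ N * ((C ∩ C' ∩ Vg).card : ℝ)

/-- RND1H: one round. -/
def Stmt_RND1H : Prop :=
  ∀ h : ℝ, 0 < h → h ≤ 1 / 10 → ∃ l0 : ℕ, ∀ (l S : ℕ) (g g' R : ℝ), l0 ≤ l → 0 < g → g ≤ h →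
    0 < g' → 1 ≤ R → 1000 * (R + 1) * g' ≤ g → ∃ δ : ℝ, 0 < δ ∧
    ∀ m r K K1 : ℕ, 1 ≤ m → ∃ (σ c1 ε0 : ℝ) (d0 : ℕ), 0 < σ ∧ 0 < c1 ∧ 0 < ε0 ∧
    ∀ {V : Type u} [Fintype V] {ι : Type} (Hs : ι → SimpleGraph V) (Ds : ι → ℕ)
      (Dm : ι → ι → ℕ) (b : ℝ) (dd : ℕ) (lab : V → Lh l m r K K1 S),
      (∀ i, d0 ≤ Ds i) → Hosts g ε0 σ c1 b R Hs Ds Dm lab → (1 + h) * dd ≤ b →
      OneRoundH g' δ Hs Ds dd lab

/-- CAPEH: the last rounds. -/
def Stmt_CAPEH : Prop :=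
  ∀ h : ℝ, 0 < h → h ≤ 1 / 10 → ∃ l0 : ℕ, ∀ (l : ℕ) (g g' R : ℝ), l0 ≤ l → 0 < g → g ≤ h →
    0 < g' → 1 ≤ R → 1000 * (R + 1) * g' ≤ g → ∃ δ : ℝ, 0 < δ ∧
    ∀ m r K K1 S : ℕ, 1 ≤ m → ∃ (σ c1 ε0 : ℝ) (d0 : ℕ), 0 < σ ∧ 0 < c1 ∧ 0 < ε0 ∧
    ∀ {V : Type u} [Fintype V] {ι : Type} (Hs : ι → SimpleGraph V) (Ds : ι → ℕ)
      (Dm : ι → ι → ℕ) (b : ℝ) (dd : ℕ) (lab : V → Lh l m r K K1 S),
      (∀ i, d0 ≤ Ds i) → Hosts g ε0 σ c1 b R Hs Ds Dm lab → (1 + h) * dd ≤ b →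
      EndCapH h g' δ Hs Ds dd lab

end Pool.Agent.Work.MP_db9399_hc
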